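import Mathlib
import Pool.Agent.H300R2.EC.Defs

set_option autoImplicit false

/-!
Exact Hardy-Littlewood constants: the number of exceptional discriminants.
-/

namespace Pool.Agent.H201R2.EC_X4

open Finset Filter
open Pool.Agent.H300R2.EC

theorem markov (s : Finset ℤ) (f : ℤ → ℝ) (k : ℕ) (d : ℝ) (hd : 0 < d)
    [DecidablePred fun D => 1 / d < |f D|] :
    ((s.filter (fun D => 1 / d < |f D|)).card : ℝ) ≤ d ^ (2 * k) * ∑ D ∈ s, f D ^ (2 * k) := by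
  have h1 : ∀ D ∈ s.filter (fun D => 1 / d < |f D|), (1 : ℝ) ≤ d ^ (2 * k) * f D ^ (2 * k) := by
    intro D hD
    rw [mem_filter] at hD
    have h2 : 1 ≤ d * |f D| := by
      have := (div_lt_iff₀ hd).1 hD.2
      linarith [mul_comm (|f D|) d]
    have h3 : (1 : ℝ) ≤ (d * |f D|) ^ (2 * k) := one_le_pow₀ h2
    rw [mul_pow, pow_mul |f D|, sq_abs, ← pow_mul] at h3
    exact h3
  have hnn : ∀ D, 0 ≤ d ^ (2 * k) * f D ^ (2 * k) := by
    intro D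
    have : 0 ≤ f D ^ (2 * k) := by rw [pow_mul]; positivity
    positivity
  calc ((s.filter (fun D => 1 / d < |f D|)).card : ℝ)
      = ∑ D ∈ s.filter (fun D => 1 / d < |f D|), (1 : ℝ) := by simp
    _ ≤ ∑ D ∈ s.filter (fun D => 1 / d < |f D|), d ^ (2 * k) * f D ^ (2 * k) := sum_le_sum h1
    _ ≤ ∑ D ∈ s, d ^ (2 * k) * f D ^ (2 * k) :=
        sum_le_sum_of_subset_of_nonneg (filter_subset _ _) (fun D _ _ => hnn D)
    _ = d ^ (2 * k) * ∑ D ∈ s, f D ^ (2 * k) := by rw [mul_sum]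

/-- the bound for one `i` -/
theorem one_i
    (moment : ∀ (X P k : ℕ), 1 ≤ P → 1 ≤ k → ∑ D ∈ Dset X, (Sd D P (2 * P)) ^ (2 * k) ≤
      (k.factorial : ℝ) * (2 ^ k * Real.sqrt X + 8 * (X : ℝ) ^ 3 / (P : ℝ) ^ k))
    (V E H i : ℕ) (hE : 72 * (2 * V + 2) + 2 ≤ E) (hH5 : 5 ≤ H)
    (hL3 : 3 ≤ Real.log H) (hL1 : 2 * 21 ^ (2 * V) ≤ Real.log H)
    (hL2 : (2 * (V : ℝ) + 2) * Real.log (Real.log H) ≤ Real.log H / 16)
    (hL4 : Real.log H ≤ (H : ℝ) ^ (1 / (16 * ((V : ℝ) + 1))))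
    (hi : (i : ℝ) ≤ (H : ℝ) ^ (1 / (16 * ((V : ℝ) + 1)))) :
    (((Dset (5 * H ^ 2)).filter (fun D => 1 / (Real.log H + i) ^ V <
      |Sd D (⌊Real.log H ^ E⌋₊ * 2 ^ i) (2 * (⌊Real.log H ^ E⌋₊ * 2 ^ i))|)).card : ℝ) ≤
      15 * 4 ^ V * (H : ℝ) * (H : ℝ) ^ (3 / 16 : ℝ) := by
  set L := Real.log H with hLdef
  set z := ⌊L ^ E⌋₊ with hz
  have hL0 : 0 < L := by linarith
  have hHpos : (0 : ℝ) < H := by
    have : (5 : ℝ) ≤ H := by exact_mod_cast hH5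
    linarith
  have hH5' : (5 : ℝ) ≤ H := by exact_mod_cast hH5
  -- size of `z`
  have hzL : L ^ (E - 1) ≤ z := by
    have h1 : L ^ E = L * L ^ (E - 1) := by
      rw [← pow_succ']
      congr 1
      omega
    have h2 : L ^ E < z + 1 := Nat.lt_floor_add_one _
    have h3 : 1 ≤ L ^ (E - 1) := one_le_pow₀ (by linarith)
    nlinarith
  have hz1 : 1 ≤ z := by
    have h3 : 1 ≤ L ^ (E - 1) := one_le_pow₀ (by linarith)
    have : (1 : ℝ) ≤ z := h3.trans hzL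
    exact_mod_cast this
  have hP1 : 1 ≤ z * 2 ^ i := Nat.mul_pos hz1 (by positivity)
  have hd : 0 < (L + i) ^ V := by positivity
  have hsq : Real.sqrt ((5 * H ^ 2 : ℕ) : ℝ) ≤ 3 * H := by
    rw [Real.sqrt_le_left (by positivity)]
    push_cast
    nlinarith
  have hsq1 : 1 ≤ Real.sqrt ((5 * H ^ 2 : ℕ) : ℝ) := by
    rw [Real.one_le_sqrt]
    push_cast
    nlinarith
  have hX3 : (((5 * H ^ 2 : ℕ) : ℝ)) ^ 3 ≤ (H : ℝ) ^ 9 := by
    have h1 : (((5 * H ^ 2 : ℕ) : ℝ)) ≤ (H : ℝ) ^ 3 := by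
      push_cast
      nlinarith [sq_nonneg (H : ℝ), pow_pos hHpos 2]
    calc (((5 * H ^ 2 : ℕ) : ℝ)) ^ 3 ≤ ((H : ℝ) ^ 3) ^ 3 := by
          apply pow_le_pow_left₀ (by positivity) h1
      _ = (H : ℝ) ^ 9 := by ring
  have hH9 : (H : ℝ) ^ 9 = Real.exp (9 * L) := by
    rw [hLdef, ← Real.exp_log hHpos, ← Real.exp_nat_mul, Real.log_exp]
    norm_num
  have hrp : (H : ℝ) ^ (3 / 16 : ℝ) = Real.exp (3 * L / 16) := by
    rw [Real.rpow_def_of_pos hHpos]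
    congr 1
    rw [← hLdef]
    ring
  have h4V : (1 : ℝ) ≤ 4 ^ V := one_le_pow₀ (by norm_num)
  by_cases hcase : ((z * 2 ^ i : ℕ) : ℝ) ≤ (H : ℝ) ^ 9
  · -- small `i`
    have hi20 : (i : ℝ) ≤ 20 * L := by
      have h1 : ((2 : ℝ) ^ i) ≤ Real.exp (9 * L) := by
        rw [← hH9]
        refine le_trans ?_ hcase
        push_cast
        have : (1 : ℝ) ≤ z := by exact_mod_cast hz1
        nlinarith [pow_pos (show (0 : ℝ) < 2 by norm_num) i]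
      have h2 : (i : ℝ) * Real.log 2 ≤ 9 * L := by
        rw [← Real.log_pow, ← Real.log_exp (9 * L)]
        exact Real.log_le_log (by positivity) h1
      have h3 := Real.log_two_gt_d9
      nlinarith [Nat.cast_nonneg (α := ℝ) i]
    have hlL : 1 ≤ Real.log L := by
      rw [Real.le_log_iff_exp_le hL0]
      have := Real.exp_one_lt_d9
      linarith
    have hE1 : (72 * (2 * (V : ℝ) + 2)) ≤ (E : ℝ) - 1 := by
      have : ((72 * (2 * V + 2) + 2 : ℕ) : ℝ) ≤ E := by exact_mod_cast hE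
      push_cast at this
      linarith
    have hE1' : (0 : ℝ) < (E : ℝ) - 1 := by
      have : (0 : ℝ) ≤ V := Nat.cast_nonneg V
      nlinarith
    have hE72 : (144 : ℝ) ≤ (E : ℝ) - 1 := by
      have : (0 : ℝ) ≤ V := Nat.cast_nonneg V
      nlinarith
    set k := ⌈9 * L / (((E : ℝ) - 1) * Real.log L)⌉₊ with hk
    have hkpos : 0 < 9 * L / (((E : ℝ) - 1) * Real.log L) := by positivity
    have hk1 : 1 ≤ k := Nat.ceil_pos.2 hkpos
    have hkge : 9 * L / (((E : ℝ) - 1) * Real.log L) ≤ k := Nat.le_ceil _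
    have hkle : (k : ℝ) ≤ 9 * L / (((E : ℝ) - 1) * Real.log L) + 1 :=
      (Nat.ceil_lt_add_one hkpos.le).le
    have hq1 : 9 * L / (((E : ℝ) - 1) * Real.log L) ≤ L / 16 := by
      rw [div_le_iff₀ (by positivity)]
      nlinarith [mul_le_mul hE72 hlL (by norm_num) hE1'.le]
    have hkL : (k : ℝ) ≤ L := by linarith
    have hq2 : (2 * (V : ℝ) + 2) * (k * Real.log L) ≤ 3 * L / 16 := by
      have h1 : (k : ℝ) * Real.log L ≤ 9 * L / ((E : ℝ) - 1) + Real.log L := by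
        have h2 : 9 * L / (((E : ℝ) - 1) * Real.log L) * Real.log L = 9 * L / ((E : ℝ) - 1) := by
          field_simp
        nlinarith
      have h2 : (2 * (V : ℝ) + 2) * (9 * L / ((E : ℝ) - 1)) ≤ L / 8 := by
        rw [mul_div_assoc', div_le_iff₀ hE1']
        nlinarith
      have h3 : (0 : ℝ) ≤ 2 * (V : ℝ) + 2 := by positivity
      nlinarith
    have hzk : (H : ℝ) ^ 9 ≤ (((z * 2 ^ i : ℕ) : ℝ)) ^ k := by
      have h1 : L ^ (E - 1) ≤ ((z * 2 ^ i : ℕ) : ℝ) := by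
        push_cast
        have : (1 : ℝ) ≤ 2 ^ i := one_le_pow₀ (by norm_num)
        nlinarith [pow_pos hL0 (E - 1)]
      have h2 : (L ^ (E - 1)) ^ k ≤ (((z * 2 ^ i : ℕ) : ℝ)) ^ k :=
        pow_le_pow_left₀ (by positivity) h1 k
      refine le_trans ?_ h2
      rw [hH9]
      have h3 : (L ^ (E - 1)) ^ k = Real.exp (((E : ℝ) - 1) * k * Real.log L) := by
        rw [← pow_mul, ← Real.exp_log (pow_pos hL0 _), Real.log_pow]
        congr 1
        push_cast [show 1 ≤ E by omega]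
        ring
      rw [h3]
      apply Real.exp_le_exp.2
      have := (div_le_iff₀ (by positivity)).1 hkge
      linarith
    have hfac : (k.factorial : ℝ) ≤ (k : ℝ) ^ k := by exact_mod_cast Nat.factorial_le_pow k
    refine (markov _ _ k _ hd).trans ?_
    have hmom := moment (5 * H ^ 2) (z * 2 ^ i) k hP1 hk1
    have hPk : 0 < (((z * 2 ^ i : ℕ) : ℝ)) ^ k := by
      have : (0 : ℝ) < ((z * 2 ^ i : ℕ) : ℝ) := by exact_mod_cast hP1
      positivity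
    have h8 : 8 * (((5 * H ^ 2 : ℕ) : ℝ)) ^ 3 / (((z * 2 ^ i : ℕ) : ℝ)) ^ k ≤ 8 := by
      rw [div_le_iff₀ hPk]
      linarith
    have h2k : (2 : ℝ) ≤ 2 ^ k := by
      calc (2 : ℝ) = 2 ^ 1 := by norm_num
        _ ≤ 2 ^ k := pow_le_pow_right₀ (by norm_num) hk1
    have hin : (2 : ℝ) ^ k * Real.sqrt ((5 * H ^ 2 : ℕ) : ℝ) +
        8 * (((5 * H ^ 2 : ℕ) : ℝ)) ^ 3 / (((z * 2 ^ i : ℕ) : ℝ)) ^ k ≤ 2 ^ k * (15 * H) := by
      have h9 : (8 : ℝ) ≤ 4 * (2 ^ k * Real.sqrt ((5 * H ^ 2 : ℕ) : ℝ)) := by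
        nlinarith
      nlinarith
    have hbase : (L + i) ^ V ≤ (21 * L) ^ V :=
      pow_le_pow_left₀ (by positivity) (by linarith) V
    have hbase2 : ((L + i) ^ V) ^ (2 * k) ≤ ((21 * L) ^ V) ^ (2 * k) :=
      pow_le_pow_left₀ hd.le hbase _
    have hfinal : ((21 * L) ^ V) ^ (2 * k) * ((k : ℝ) ^ k * 2 ^ k) ≤
        (H : ℝ) ^ (3 / 16 : ℝ) := by
      have h1 : ((21 * L) ^ V) ^ (2 * k) * ((k : ℝ) ^ k * 2 ^ k) =
          ((21 * L) ^ (2 * V) * (k * 2)) ^ k := by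
        rw [mul_pow _ _ k, mul_pow (k : ℝ) 2 k, ← pow_mul, ← pow_mul]
        congr 2
        ring
      have h2 : (21 * L) ^ (2 * V) * (k * 2) ≤ L ^ (2 * V + 2) := by
        have h3 : (21 * L) ^ (2 * V) * (k * 2) ≤ (21 * L) ^ (2 * V) * (L * 2) := by
          apply mul_le_mul_of_nonneg_left (by linarith) (by positivity)
        refine h3.trans ?_
        rw [mul_pow, pow_add]
        have h4 : (0 : ℝ) ≤ L ^ (2 * V) := by positivity
        have h5 : L ^ (2 * V) * L * (2 * 21 ^ (2 * V)) ≤ L ^ (2 * V) * L * L :=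
          mul_le_mul_of_nonneg_left hL1 (by positivity)
        nlinarith
      rw [h1, hrp]
      calc ((21 * L) ^ (2 * V) * (k * 2)) ^ k ≤ (L ^ (2 * V + 2)) ^ k :=
            pow_le_pow_left₀ (by positivity) h2 k
        _ = Real.exp ((2 * (V : ℝ) + 2) * (k * Real.log L)) := by
            rw [← pow_mul, ← Real.exp_log (pow_pos hL0 _), Real.log_pow]
            congr 1
            push_cast
            ring
        _ ≤ Real.exp (3 * L / 16) := Real.exp_le_exp.2 hq2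
    calc ((L + i) ^ V) ^ (2 * k) * ∑ D ∈ Dset (5 * H ^ 2), (Sd D (z * 2 ^ i) (2 * (z * 2 ^ i))) ^ (2 * k)
        ≤ ((21 * L) ^ V) ^ (2 * k) * ((k : ℝ) ^ k * (2 ^ k * (15 * H))) := by
          apply mul_le_mul hbase2 _ _ (by positivity)
          · refine hmom.trans ?_
            apply mul_le_mul hfac hin _ (by positivity)
            positivity
          · apply sum_nonneg
            intro D _
            rw [pow_mul]
            positivity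
      _ = ((21 * L) ^ V) ^ (2 * k) * ((k : ℝ) ^ k * 2 ^ k) * (15 * H) := by ring
      _ ≤ (H : ℝ) ^ (3 / 16 : ℝ) * (15 * H) :=
          mul_le_mul_of_nonneg_right hfinal (by positivity)
      _ ≤ 15 * 4 ^ V * (H : ℝ) * (H : ℝ) ^ (3 / 16 : ℝ) := by
          have : 0 ≤ (H : ℝ) ^ (3 / 16 : ℝ) * (15 * H) := by positivity
          nlinarith
  · -- large `i`
    push Not at hcase
    refine (markov _ _ 1 _ hd).trans ?_
    have hmom := moment (5 * H ^ 2) (z * 2 ^ i) 1 hP1 le_rfl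
    have hPk : 0 < (((z * 2 ^ i : ℕ) : ℝ)) := by exact_mod_cast hP1
    have h8 : 8 * (((5 * H ^ 2 : ℕ) : ℝ)) ^ 3 / (((z * 2 ^ i : ℕ) : ℝ)) ^ 1 ≤ 8 := by
      rw [pow_one, div_le_iff₀ hPk]
      linarith
    have hin : (2 : ℝ) ^ 1 * Real.sqrt ((5 * H ^ 2 : ℕ) : ℝ) +
        8 * (((5 * H ^ 2 : ℕ) : ℝ)) ^ 3 / (((z * 2 ^ i : ℕ) : ℝ)) ^ 1 ≤ 15 * H := by
      nlinarith
    have hin' : ((1 : ℕ).factorial : ℝ) * ((2 : ℝ) ^ 1 * Real.sqrt ((5 * H ^ 2 : ℕ) : ℝ) +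
        8 * (((5 * H ^ 2 : ℕ) : ℝ)) ^ 3 / (((z * 2 ^ i : ℕ) : ℝ)) ^ 1) ≤ 15 * H := by
      rw [Nat.factorial_one, Nat.cast_one, one_mul]
      exact hin
    set y := (H : ℝ) ^ (1 / (16 * ((V : ℝ) + 1))) with hy
    have hy0 : 0 ≤ y := by positivity
    have hyV : (y ^ V) ^ 2 ≤ (H : ℝ) ^ (3 / 16 : ℝ) := by
      rw [← pow_mul, hy, ← Real.rpow_natCast, ← Real.rpow_mul hHpos.le]
      apply Real.rpow_le_rpow_of_exponent_le (by linarith)
      push_cast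
      rw [div_mul_eq_mul_div, div_le_div_iff₀ (by positivity) (by norm_num)]
      nlinarith [Nat.cast_nonneg (α := ℝ) V]
    have hbase : (L + i) ^ V ≤ (2 * y) ^ V :=
      pow_le_pow_left₀ (by positivity) (by linarith) V
    have hbase2 : ((L + i) ^ V) ^ (2 * 1) ≤ ((2 * y) ^ V) ^ (2 * 1) :=
      pow_le_pow_left₀ hd.le hbase _
    calc ((L + i) ^ V) ^ (2 * 1) * ∑ D ∈ Dset (5 * H ^ 2), (Sd D (z * 2 ^ i) (2 * (z * 2 ^ i))) ^ (2 * 1)
        ≤ ((2 * y) ^ V) ^ (2 * 1) * (15 * H) := by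
          apply mul_le_mul hbase2 (hmom.trans hin') _ (by positivity)
          apply sum_nonneg
          intro D _
          rw [pow_mul]
          positivity
      _ = 15 * 4 ^ V * H * (y ^ V) ^ 2 := by
          rw [mul_pow, show (4 : ℝ) ^ V = (2 ^ V) ^ 2 by rw [← pow_mul, mul_comm V 2, pow_mul]; norm_num]
          ring
      _ ≤ 15 * 4 ^ V * (H : ℝ) * (H : ℝ) ^ (3 / 16 : ℝ) :=
          mul_le_mul_of_nonneg_left hyV (by positivity)

open Classical in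
theorem mem_Exc {V E H : ℕ} {D : ℤ} (hD : D ∈ Exc V E H) :
    D ∈ Dset (5 * H ^ 2) ∧ ∃ i : ℕ, (i : ℝ) ≤ (H : ℝ) ^ (1 / (16 * ((V : ℝ) + 1))) ∧
      1 / (Real.log H + i) ^ V <
      |Sd D (⌊Real.log H ^ E⌋₊ * 2 ^ i) (2 * (⌊Real.log H ^ E⌋₊ * 2 ^ i))| := by
  unfold Exc at hD
  exact mem_filter.1 hD

/-- X4 -/
theorem exc_total
    (moment : ∀ (X P k : ℕ), 1 ≤ P → 1 ≤ k → ∑ D ∈ Dset X, (Sd D P (2 * P)) ^ (2 * k) ≤
      (k.factorial : ℝ) * (2 ^ k * Real.sqrt X + 8 * (X : ℝ) ^ 3 / (P : ℝ) ^ k))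
    (V : ℕ) : ∃ E0 : ℕ, ∀ E : ℕ, E0 ≤ E → ∃ H0 : ℕ, ∀ H : ℕ, H0 ≤ H →
    ((Exc V E H).card : ℝ) ≤ (H : ℝ) ^ (3 / 2 : ℝ) := by
  refine ⟨72 * (2 * V + 2) + 2, fun E hE => ?_⟩
  have hcast : Tendsto (fun H : ℕ => (H : ℝ)) atTop atTop := tendsto_natCast_atTop_atTop
  have hlog : Tendsto (fun H : ℕ => Real.log H) atTop atTop := Real.tendsto_log_atTop.comp hcast
  have e1 := hlog.eventually_ge_atTop 3
  have e2 := hlog.eventually_ge_atTop (2 * 21 ^ (2 * V))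
  have e3 : ∀ᶠ H : ℕ in atTop, (2 * (V : ℝ) + 2) * Real.log (Real.log H) ≤ Real.log H / 16 := by
    have h1 : ∀ᶠ x : ℝ in atTop, ‖Real.log x‖ ≤ (1 / (16 * (2 * (V : ℝ) + 2))) * ‖x‖ :=
      Real.isLittleO_log_id_atTop.bound (by positivity)
    filter_upwards [hlog.eventually h1, e1] with H hH hH3
    rw [Real.norm_eq_abs, Real.norm_eq_abs, abs_of_pos (show (0 : ℝ) < Real.log H by linarith)] at hH
    have h2 := (le_abs_self _).trans hH
    have h3 : (0 : ℝ) < 2 * (V : ℝ) + 2 := by positivity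
    calc (2 * (V : ℝ) + 2) * Real.log (Real.log H)
        ≤ (2 * (V : ℝ) + 2) * ((1 / (16 * (2 * (V : ℝ) + 2))) * Real.log H) :=
          mul_le_mul_of_nonneg_left h2 h3.le
      _ = Real.log H / 16 := by field_simp
  have e4 : ∀ᶠ H : ℕ in atTop, Real.log H ≤ (H : ℝ) ^ (1 / (16 * ((V : ℝ) + 1))) := by
    have h1 : ∀ᶠ x : ℝ in atTop, ‖Real.log x‖ ≤ 1 * ‖x ^ (1 / (16 * ((V : ℝ) + 1)))‖ :=
      (isLittleO_log_rpow_atTop (by positivity)).bound one_pos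
    filter_upwards [hcast.eventually h1] with H hH
    rw [one_mul, Real.norm_eq_abs, Real.norm_eq_abs,
      abs_of_nonneg (show (0 : ℝ) ≤ (H : ℝ) ^ (1 / (16 * ((V : ℝ) + 1))) by positivity)] at hH
    exact (le_abs_self _).trans hH
  have e5 : ∀ᶠ H : ℕ in atTop, 30 * 4 ^ V ≤ (H : ℝ) ^ (1 / 4 : ℝ) :=
    ((tendsto_rpow_atTop (by norm_num : (0 : ℝ) < 1 / 4)).comp hcast).eventually_ge_atTop _
  have e6 := eventually_ge_atTop 5 (α := ℕ)
  obtain ⟨H0, hH0⟩ := eventually_atTop.1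
    ((((((e1.and e2).and e3).and e4).and e5).and e6))
  refine ⟨H0, fun H hH => ?_⟩
  obtain ⟨⟨⟨⟨⟨f1, f2⟩, f3⟩, f4⟩, f5⟩, f6⟩ := hH0 H hH
  have hH1 : (1 : ℝ) ≤ H := by
    have : 1 ≤ H := by omega
    exact_mod_cast this
  have hHpos : (0 : ℝ) < H := by linarith
  set y := (H : ℝ) ^ (1 / (16 * ((V : ℝ) + 1))) with hy
  have hy0 : 0 ≤ y := by positivity
  have hsub : Exc V E H ⊆ (range (⌊y⌋₊ + 1)).biUnion (fun i =>
      (Dset (5 * H ^ 2)).filter (fun D => 1 / (Real.log H + i) ^ V <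
      |Sd D (⌊Real.log H ^ E⌋₊ * 2 ^ i) (2 * (⌊Real.log H ^ E⌋₊ * 2 ^ i))|)) := by
    intro D hD
    obtain ⟨h1, i, h2, h3⟩ := mem_Exc hD
    rw [mem_biUnion]
    refine ⟨i, ?_, ?_⟩
    · rw [mem_range]
      have := Nat.le_floor h2
      exact Nat.lt_succ_of_le this
    · rw [mem_filter]
      exact ⟨h1, h3⟩
  have hcard : ((Exc V E H).card : ℝ) ≤ ∑ i ∈ range (⌊y⌋₊ + 1),
      15 * 4 ^ V * (H : ℝ) * (H : ℝ) ^ (3 / 16 : ℝ) := by
    have h1 : ((Exc V E H).card : ℝ) ≤ ∑ i ∈ range (⌊y⌋₊ + 1),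
        (((Dset (5 * H ^ 2)).filter (fun D => 1 / (Real.log H + i) ^ V <
      |Sd D (⌊Real.log H ^ E⌋₊ * 2 ^ i) (2 * (⌊Real.log H ^ E⌋₊ * 2 ^ i))|)).card : ℝ) := by
      have h2 := (card_le_card hsub).trans card_biUnion_le
      exact_mod_cast h2
    refine h1.trans (sum_le_sum fun i hi => ?_)
    rw [mem_range] at hi
    have hi2 : (i : ℝ) ≤ y := by
      have : i ≤ ⌊y⌋₊ := by omega
      exact (Nat.le_floor_iff hy0).1 this
    exact one_i moment V E H i hE f6 f1 f2 f3 f4 hi2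
  rw [sum_const, card_range, nsmul_eq_mul] at hcard
  refine hcard.trans ?_
  have hy16 : y ≤ (H : ℝ) ^ (1 / 16 : ℝ) := by
    rw [hy]
    apply Real.rpow_le_rpow_of_exponent_le hH1
    apply div_le_div_of_nonneg_left (by norm_num) (by norm_num)
    nlinarith [Nat.cast_nonneg (α := ℝ) V]
  have h116 : 1 ≤ (H : ℝ) ^ (1 / 16 : ℝ) := Real.one_le_rpow hH1 (by norm_num)
  have hfl : ((⌊y⌋₊ + 1 : ℕ) : ℝ) ≤ 2 * (H : ℝ) ^ (1 / 16 : ℝ) := by
    push_cast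
    have := Nat.floor_le hy0
    linarith
  calc ((⌊y⌋₊ + 1 : ℕ) : ℝ) * (15 * 4 ^ V * (H : ℝ) * (H : ℝ) ^ (3 / 16 : ℝ))
      ≤ 2 * (H : ℝ) ^ (1 / 16 : ℝ) * (15 * 4 ^ V * (H : ℝ) * (H : ℝ) ^ (3 / 16 : ℝ)) :=
        mul_le_mul_of_nonneg_right hfl (by positivity)
    _ = 30 * 4 ^ V * ((H : ℝ) ^ (1 : ℝ) * (H : ℝ) ^ (1 / 16 : ℝ) * (H : ℝ) ^ (3 / 16 : ℝ)) := by
        rw [Real.rpow_one]
        ring
    _ = 30 * 4 ^ V * (H : ℝ) ^ (5 / 4 : ℝ) := by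
        rw [← Real.rpow_add hHpos, ← Real.rpow_add hHpos]
        norm_num
    _ ≤ (H : ℝ) ^ (1 / 4 : ℝ) * (H : ℝ) ^ (5 / 4 : ℝ) :=
        mul_le_mul_of_nonneg_right f5 (by positivity)
    _ = (H : ℝ) ^ (3 / 2 : ℝ) := by
        rw [← Real.rpow_add hHpos]
        norm_num

end Pool.Agent.H201R2.EC_X4
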