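import Mathlib
import Pool.Agent.H300R2.EC.Defs

set_option autoImplicit false

/-!
Exact Hardy-Littlewood constants: good discriminants.
-/

namespace Pool.Agent.H201R2.EC_X6

open Finset Filter
open Pool.Agent.H300R2.EC

open Classical in
theorem mem_Exc' {V E H : ℕ} {D : ℤ} (hD : D ∈ Dset (5 * H ^ 2)) (i : ℕ)
    (h1 : (i : ℝ) ≤ (H : ℝ) ^ (1 / (16 * ((V : ℝ) + 1))))
    (h2 : 1 / (Real.log H + i) ^ V <
      |Sd D (⌊Real.log H ^ E⌋₊ * 2 ^ i) (2 * (⌊Real.log H ^ E⌋₊ * 2 ^ i))|) : D ∈ Exc V E H := by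
  unfold Exc
  exact mem_filter.2 ⟨hD, i, h1, h2⟩

theorem Sd_add (D : ℤ) {P Q R : ℕ} (h1 : P ≤ Q) (h2 : Q ≤ R) :
    Sd D P R = Sd D P Q + Sd D Q R := by
  unfold Sd
  rw [← Ioc_union_Ioc_eq_Ioc h1 h2, filter_union, sum_union]
  apply disjoint_filter_filter
  exact Ioc_disjoint_Ioc_of_le le_rfl

theorem Sd_dyadic (D : ℤ) (z n : ℕ) :
    Sd D z (z * 2 ^ n) = ∑ i ∈ range n, Sd D (z * 2 ^ i) (2 * (z * 2 ^ i)) := by
  induction n with
  | zero =>
    simp [Sd]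
  | succ n ih =>
    rw [sum_range_succ, ← ih]
    have h1 : z * 2 ^ (n + 1) = 2 * (z * 2 ^ n) := by ring
    rw [h1]
    apply Sd_add
    · exact Nat.le_mul_of_pos_right _ (by positivity)
    · omega

theorem tele (L : ℝ) (hL : 2 ≤ L) (n : ℕ) :
    ∑ i ∈ range n, 1 / (L + i) ^ 2 ≤ 1 / (L - 1) - 1 / (L - 1 + n) := by
  induction n with
  | zero => simp
  | succ n ih =>
    rw [sum_range_succ]
    have hn : (0 : ℝ) ≤ n := Nat.cast_nonneg n
    have h1 : 1 / (L + n) ^ 2 ≤ 1 / (L - 1 + n) - 1 / (L - 1 + (n + 1 : ℕ)) := by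
      have ha : (0 : ℝ) < L - 1 + n := by linarith
      have hb : (0 : ℝ) < L + n := by linarith
      have he : L - 1 + ((n + 1 : ℕ) : ℝ) = L + n := by push_cast; ring
      rw [he, div_sub_div _ _ ha.ne' hb.ne', div_le_div_iff₀ (by positivity) (by positivity)]
      nlinarith
    linarith

/-- X6 -/
theorem good_D
    (exc_total : ∀ V : ℕ, ∃ E0 : ℕ, ∀ E : ℕ, E0 ≤ E → ∃ H0 : ℕ, ∀ H : ℕ, H0 ≤ H →
      ((Exc V E H).card : ℝ) ≤ (H : ℝ) ^ (3 / 2 : ℝ))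
    (sw_tail : ∀ V W : ℕ, ∃ P0 : ℕ, ∀ P : ℕ, P0 ≤ P → ∀ Q : ℕ, P ≤ Q → Q ≤ 2 * P → ∀ D : ℤ,
      ¬ IsSquare D → 4 * |(D : ℝ)| ≤ Real.log P ^ W → |Sd D P Q| ≤ 1 / Real.log P ^ V)
    (V : ℕ) : ∃ E0 : ℕ, ∀ E : ℕ, E0 ≤ E → ∃ H0 : ℕ, ∀ H : ℕ, H0 ≤ H → ∃ S : Finset ℤ,
    (S.card : ℝ) ≤ (H : ℝ) ^ (3 / 2 : ℝ) ∧ ∀ D : ℤ, ¬ IsSquare D → |D| ≤ 5 * (H : ℤ) ^ 2 → D ∉ S →
    ∀ n : ℕ, |Sd D ⌊Real.log H ^ E⌋₊ (⌊Real.log H ^ E⌋₊ * 2 ^ n)| ≤ 1 / Real.log H ^ V := by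
  obtain ⟨E0, hE0⟩ := exc_total (V + 2)
  obtain ⟨P0, hP0⟩ := sw_tail (V + 3) (64 * (V + 3))
  refine ⟨E0, fun E hE => ?_⟩
  obtain ⟨H1, hH1⟩ := hE0 E hE
  have hcast : Tendsto (fun H : ℕ => (H : ℝ)) atTop atTop := tendsto_natCast_atTop_atTop
  have hlog : Tendsto (fun H : ℕ => Real.log H) atTop atTop := Real.tendsto_log_atTop.comp hcast
  have e1 := hlog.eventually_ge_atTop 2
  have e4 : ∀ᶠ H : ℕ in atTop, Real.log H ≤ (H : ℝ) ^ (1 / (16 * ((V : ℝ) + 3))) := by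
    have h1 : ∀ᶠ x : ℝ in atTop, ‖Real.log x‖ ≤ 1 * ‖x ^ (1 / (16 * ((V : ℝ) + 3)))‖ :=
      (isLittleO_log_rpow_atTop (by positivity)).bound one_pos
    filter_upwards [hcast.eventually h1] with H hH
    rw [one_mul, Real.norm_eq_abs, Real.norm_eq_abs,
      abs_of_nonneg (show (0 : ℝ) ≤ (H : ℝ) ^ (1 / (16 * ((V : ℝ) + 3))) by positivity)] at hH
    exact (le_abs_self _).trans hH
  have hyt : Tendsto (fun H : ℕ => (H : ℝ) ^ (1 / (16 * ((V : ℝ) + 3)))) atTop atTop :=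
    (tendsto_rpow_atTop (by positivity)).comp hcast
  have e5 := hyt.eventually_ge_atTop (P0 : ℝ)
  have e6 := hyt.eventually_ge_atTop (2 ^ (2 * (V + 2) + 1) : ℝ)
  have e7 : ∀ᶠ H : ℕ in atTop, 20 * 2 ^ (64 * (V + 3)) ≤ (H : ℝ) :=
    hcast.eventually_ge_atTop _
  obtain ⟨H0, hH0⟩ := eventually_atTop.1 ((((e1.and e4).and e5).and e6).and e7)
  refine ⟨max H0 H1, fun H hH => ⟨Exc (V + 2) E H, ?_, ?_⟩⟩
  · exact hH1 H (le_trans (le_max_right _ _) hH)
  intro D hDsq hDle hDS n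
  obtain ⟨⟨⟨⟨f1, f4⟩, f5⟩, f6⟩, f7⟩ := hH0 H (le_trans (le_max_left _ _) hH)
  set L := Real.log H with hLdef
  set z := ⌊L ^ E⌋₊ with hz
  set y := (H : ℝ) ^ (1 / (16 * ((V : ℝ) + 3))) with hy
  have hL0 : 0 < L := by linarith
  have hH20 : (20 : ℝ) ≤ H := by
    have : (1 : ℝ) ≤ 2 ^ (64 * (V + 3)) := one_le_pow₀ (by norm_num)
    linarith
  have hHpos : (0 : ℝ) < H := by linarith
  have hz1 : 1 ≤ z := by
    rw [hz, Nat.one_le_floor_iff]
    exact one_le_pow₀ (by linarith)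
  have hDset : D ∈ Dset (5 * H ^ 2) := by
    unfold Dset
    rw [mem_filter, mem_Icc]
    have h0 : D ≠ 0 := by
      rintro rfl
      exact hDsq ⟨0, by simp⟩
    rw [abs_le] at hDle
    refine ⟨⟨?_, ?_⟩, h0⟩
    · push_cast
      linarith [hDle.1]
    · push_cast
      linarith [hDle.2]
  have hDR : |(D : ℝ)| ≤ 5 * (H : ℝ) ^ 2 := by exact_mod_cast hDle
  -- the dyadic pieces
  have key : ∀ i : ℕ, |Sd D (z * 2 ^ i) (2 * (z * 2 ^ i))| ≤ 1 / (L + i) ^ (V + 2) := by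
    intro i
    by_cases hi : (i : ℝ) ≤ y
    · by_contra hcon
      push Not at hcon
      apply hDS
      refine mem_Exc' hDset i ?_ hcon
      have : (16 * (((V + 2 : ℕ) : ℝ) + 1)) = 16 * ((V : ℝ) + 3) := by push_cast; ring
      rw [this]
      exact hi
    · push Not at hi
      have hiL : L ≤ i := by linarith
      have hi0 : (0 : ℝ) < i := by linarith
      have hPi : ((2 : ℝ) ^ i) ≤ ((z * 2 ^ i : ℕ) : ℝ) := by
        push_cast
        have : (1 : ℝ) ≤ z := by exact_mod_cast hz1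
        nlinarith [pow_pos (show (0 : ℝ) < 2 by norm_num) i]
      have hlogP : (i : ℝ) / 2 ≤ Real.log ((z * 2 ^ i : ℕ) : ℝ) := by
        have h1 := Real.log_le_log (by positivity) hPi
        rw [Real.log_pow] at h1
        have h3 := Real.log_two_gt_d9
        nlinarith
      have hPge : P0 ≤ z * 2 ^ i := by
        have h1 : (P0 : ℝ) ≤ i := by linarith
        have h2 : P0 ≤ i := by exact_mod_cast h1
        have h3 : i < 2 ^ i := Nat.lt_two_pow_self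
        have h4 : 2 ^ i ≤ z * 2 ^ i := Nat.le_mul_of_pos_left _ hz1
        omega
      have hDlog : 4 * |(D : ℝ)| ≤ Real.log ((z * 2 ^ i : ℕ) : ℝ) ^ (64 * (V + 3)) := by
        have hyW : y ^ (64 * (V + 3)) = (H : ℝ) ^ (4 : ℕ) := by
          rw [hy, ← Real.rpow_natCast, ← Real.rpow_mul hHpos.le, ← Real.rpow_natCast]
          congr 1
          push_cast
          field_simp
          norm_num
        have h1 : (y / 2) ^ (64 * (V + 3)) ≤ Real.log ((z * 2 ^ i : ℕ) : ℝ) ^ (64 * (V + 3)) := by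
          apply pow_le_pow_left₀ (by positivity)
          linarith
        refine le_trans ?_ h1
        rw [div_pow, hyW, le_div_iff₀ (by positivity)]
        have h2 : 4 * |(D : ℝ)| * 2 ^ (64 * (V + 3)) ≤ 20 * (H : ℝ) ^ 2 * 2 ^ (64 * (V + 3)) := by
          apply mul_le_mul_of_nonneg_right _ (by positivity)
          linarith
        have h3 : 20 * (H : ℝ) ^ 2 * 2 ^ (64 * (V + 3)) ≤ (H : ℝ) ^ 2 * H := by
          nlinarith [pow_pos hHpos 2]
        have h4 : (H : ℝ) ^ 2 * H ≤ (H : ℝ) ^ 4 := by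
          nlinarith [pow_pos hHpos 3]
        linarith
      have h1 := hP0 (z * 2 ^ i) hPge (2 * (z * 2 ^ i)) (by omega) le_rfl D hDsq hDlog
      refine h1.trans ?_
      apply one_div_le_one_div_of_le (by positivity)
      have h2 : ((i : ℝ) / 2) ^ (V + 3) ≤ Real.log ((z * 2 ^ i : ℕ) : ℝ) ^ (V + 3) :=
        pow_le_pow_left₀ (by positivity) hlogP _
      have h3 : (L + i) ^ (V + 2) ≤ (2 * (i : ℝ)) ^ (V + 2) :=
        pow_le_pow_left₀ (by positivity) (by linarith) _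
      have h4 : (2 * (i : ℝ)) ^ (V + 2) ≤ ((i : ℝ) / 2) ^ (V + 3) := by
        have h5 : (2 : ℝ) ^ (2 * (V + 2) + 1) ≤ i := by linarith
        rw [div_pow, le_div_iff₀ (by positivity), mul_pow]
        calc (2 : ℝ) ^ (V + 2) * (i : ℝ) ^ (V + 2) * 2 ^ (V + 3)
            = 2 ^ (2 * (V + 2) + 1) * (i : ℝ) ^ (V + 2) := by ring
          _ ≤ i * (i : ℝ) ^ (V + 2) := mul_le_mul_of_nonneg_right h5 (by positivity)
          _ = (i : ℝ) ^ (V + 3) := by ring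
      linarith
  rw [Sd_dyadic]
  calc |∑ i ∈ range n, Sd D (z * 2 ^ i) (2 * (z * 2 ^ i))|
      ≤ ∑ i ∈ range n, |Sd D (z * 2 ^ i) (2 * (z * 2 ^ i))| := abs_sum_le_sum_abs _ _
    _ ≤ ∑ i ∈ range n, 1 / L ^ V * (1 / (L + i) ^ 2) := by
        apply sum_le_sum
        intro i _
        refine (key i).trans ?_
        rw [one_div_mul_one_div]
        apply one_div_le_one_div_of_le (by positivity)
        rw [pow_add]
        apply mul_le_mul_of_nonneg_right _ (by positivity)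
        apply pow_le_pow_left₀ hL0.le
        have : (0 : ℝ) ≤ i := Nat.cast_nonneg i
        linarith
    _ = 1 / L ^ V * ∑ i ∈ range n, 1 / (L + i) ^ 2 := by rw [mul_sum]
    _ ≤ 1 / L ^ V * 1 := by
        apply mul_le_mul_of_nonneg_left _ (by positivity)
        refine (tele L f1 n).trans ?_
        have h1 : 1 / (L - 1) ≤ 1 := by
          rw [div_le_one (by linarith)]
          linarith
        have h2 : 0 ≤ 1 / (L - 1 + n) := by
          have : (0 : ℝ) ≤ n := Nat.cast_nonneg n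
          have : 0 < L - 1 + n := by linarith
          positivity
        linarith
    _ = 1 / L ^ V := mul_one _

end Pool.Agent.H201R2.EC_X6
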