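import Pool.Agent.H626R2.Loc.EDefs
import Pool.Agent.H485R2.LocO2

/-!
E2 of h626_tasks: derivatives of simple polynomials with few exponents per variable.
-/

set_option autoImplicit false

namespace Pool.Agent.H626R2.Loc

open MvPolynomial

namespace E2

variable {K : Type} [Field K] {n : ℕ}

lemma few_pd (m : Fin n) (q : MvPolynomial (Fin n) K) {d : ℕ} (h : FewExp d q) :
    FewExp d (pderiv m q) := by
  intro i
  refine le_trans ?_ (h i)
  by_cases hi : i = m
  · subst hi
    refine Finset.card_le_card_of_injOn (fun x => if x = 0 then 0 else x + 1) ?_ ?_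
    · intro x hx
      rw [Finset.mem_coe, Finset.mem_insert, Finset.mem_image] at hx
      rw [Finset.mem_coe, Finset.mem_insert, Finset.mem_image]
      by_cases hx0 : x = 0
      · left
        simp [hx0]
      · right
        rcases hx with hx | ⟨s, hs, rfl⟩
        · exact absurd hx hx0
        · refine ⟨s + Finsupp.single i 1, O2.mem_supp_pd i q s hs, ?_⟩
          simp [hx0]
    · intro x _ y _ hxy
      simp only at hxy
      split_ifs at hxy with h1 h2 h2
      · rw [h1, h2]
      · omega
  · apply Finset.card_le_card
    apply Finset.insert_subset_insert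
    intro x hx
    rw [Finset.mem_image] at hx ⊢
    obtain ⟨s, hs, rfl⟩ := hx
    refine ⟨s + Finsupp.single m 1, O2.mem_supp_pd m q s hs, ?_⟩
    simp [Finsupp.single_eq_of_ne hi]

lemma sum_case {L s d : ℕ} {σ : MvPolynomial (Fin n) K} (h : SumE L s d σ) (m : Fin n) :
    SumE L s d (pderiv m σ) := by
  obtain ⟨u, q, h1, h2, h3, rfl⟩ := h
  refine ⟨Pi.single m (Polynomial.derivative (u m)), pderiv m q, ?_, le_trans (O2.supp_pd m q) h2,
    few_pd m q h3, ?_⟩
  · intro i
    by_cases h : i = m
    · subst h
      rw [Pi.single_eq_same]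
      exact le_trans (O2.supp_deriv _) (h1 _)
    · rw [Pi.single_eq_of_ne h]
      simp
  · rw [map_add, map_sum]
    congr 1
    refine Finset.sum_congr rfl fun i _ => ?_
    rw [O2.pd_aeval]
    by_cases h : i = m
    · subst h
      rw [if_pos rfl, Pi.single_eq_same]
    · rw [if_neg h, Pi.single_eq_of_ne h, map_zero]

end E2

/-- E2. -/
theorem pderiv_simpleE {K : Type} [Field K] {n : ℕ} {L s d : ℕ} {σ : MvPolynomial (Fin n) K}
    (hσ : σ ∈ SimpleE n K L s d) (m : Fin n) : SumProd 2 (SimpleE n K L s d) (pderiv m σ) := by
  rcases hσ with h | h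
  · refine ⟨![1, 0], ![{pderiv m σ}, 0], ?_, ?_⟩
    · intro i
      fin_cases i
      · intro g hg
        have : g = pderiv m σ := by simpa using hg
        rw [this]
        exact Or.inl (E2.sum_case h m)
      · intro g hg
        simp at hg
    · simp [Fin.sum_univ_two]
  · obtain ⟨u, q, h1, h2, h3, rfl⟩ := h
    refine ⟨![1, 1], ![{(∏ i, Polynomial.aeval (X i)
        (Function.update u m (Polynomial.derivative (u m)) i)) * q},
      {(∏ i, Polynomial.aeval (X i) (u i)) * pderiv m q}], ?_, ?_⟩
    · intro i
      fin_cases i
      · intro g hg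
        have : g = (∏ i, Polynomial.aeval (X i)
            (Function.update u m (Polynomial.derivative (u m)) i)) * q := by
          simpa using hg
        rw [this]
        refine Or.inr ⟨_, q, ?_, h2, h3, rfl⟩
        intro i
        by_cases h : i = m
        · subst h
          rw [Function.update_self]
          exact le_trans (O2.supp_deriv _) (h1 _)
        · rw [Function.update_of_ne h]
          exact h1 i
      · intro g hg
        have : g = (∏ i, Polynomial.aeval (X i) (u i)) * pderiv m q := by
          simpa using hg
        rw [this]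
        exact Or.inr ⟨u, pderiv m q, h1, le_trans (O2.supp_pd m q) h2, E2.few_pd m q h3, rfl⟩
    · rw [Derivation.leibniz, O2.pd_prod]
      simp [Fin.sum_univ_two]
      ring

end Pool.Agent.H626R2.Loc
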