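import Pool.Agent.H175G.Stmts2

set_option autoImplicit false

/-! Task T19a of h175g: `C5` with the types `K_i`. -/

namespace Pool.Agent.H201R2.T19a

open Finset Classical
open Pool.Agent.H175G

variable {V : Type} {G : SimpleGraph V}

theorem rot {c0 c1 c2 c3 c4 : V} (h : C5c G c0 c1 c2 c3 c4) : C5c G c1 c2 c3 c4 c0 := by
  obtain ⟨h1, h2, h3, h4, h5, h6, h7, h8, h9, h10⟩ := h
  exact ⟨h2, h3, h4, h5, h1, h8, h9, h10, fun h => h6 h.symm, fun h => h7 h.symm⟩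

/-- types other than `K₀` -/
abbrev Ty (G : SimpleGraph V) (c0 c1 c2 c3 c4 y : V) : Prop :=
  TN G c0 c1 c2 c3 c4 y ∨
      TD G c0 c1 c2 c3 c4 y ∨ TD G c1 c2 c3 c4 c0 y ∨ TD G c2 c3 c4 c0 c1 y ∨
      TD G c3 c4 c0 c1 c2 y ∨ TD G c4 c0 c1 c2 c3 y ∨
      TK G c1 c2 c3 c4 c0 y ∨ TK G c2 c3 c4 c0 c1 y ∨
      TK G c3 c4 c0 c1 c2 y ∨ TK G c4 c0 c1 c2 c3 y ∨
      TM G c0 c1 c2 c3 c4 y ∨ TM G c1 c2 c3 c4 c0 y ∨ TM G c2 c3 c4 c0 c1 y ∨
      TM G c3 c4 c0 c1 c2 y ∨ TM G c4 c0 c1 c2 c3 y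

theorem key {c0 c1 c2 c3 c4 : V} (hg : NoGem G) (hp : NoP23 G) (hC : C5c G c0 c1 c2 c3 c4)
    {x y : V} (hx : TK G c0 c1 c2 c3 c4 x) (hy : Ty G c0 c1 c2 c3 c4 y)
    (h : (TD G c1 c2 c3 c4 c0 y ∨ TD G c4 c0 c1 c2 c3 y ∨ TM G c0 c1 c2 c3 c4 y) → G.Adj x y) :
    G.Adj x y ↔ G.Adj c0 y := by
  rcases hy with hy | hy | hy | hy | hy | hy | hy | hy | hy | hy | hy | hy | hy | hy | hy
  · exact iff_of_false (by intro h1; gp 2) hy.1
  · exact iff_of_false (by intro h1; gp 2) hy.1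
  · exact iff_of_true (h (Or.inl hy)) hy.2.2.2.2.1
  · exfalso; gp 2
  · exfalso; gp 2
  · exact iff_of_true (h (Or.inr (Or.inl hy))) hy.2.1
  · exact iff_of_true (by by_contra h1; gp 2) hy.2.2.2.2
  · exact iff_of_false (by intro h1; gp 2) hy.2.2.2.1
  · exact iff_of_false (by intro h1; gp 2) hy.2.2.1
  · exact iff_of_true (by by_contra h1; gp 2) hy.2.1
  · exact iff_of_true (h (Or.inr (Or.inr hy))) hy.1
  · exfalso; gp 2
  · exact iff_of_true (by by_contra h1; gp 2) hy.2.2.2.1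
  · exact iff_of_true (by by_contra h1; gp 2) hy.2.2.1
  · exfalso; gp 2

theorem kclq {c0 c1 c2 c3 c4 : V} (hp : NoP23 G) (hC : C5c G c0 c1 c2 c3 c4)
    {x y : V} (hx : TK G c0 c1 c2 c3 c4 x) (hy : TK G c0 c1 c2 c3 c4 y) (hne : x ≠ y) :
    G.Adj x y := by
  by_contra h
  gp 2

theorem mm {c0 c1 c2 c3 c4 : V} (hg : NoGem G) (hp : NoP23 G) (hC : C5c G c0 c1 c2 c3 c4)
    {x y z : V} (hx : TM G c0 c1 c2 c3 c4 x) (hy : TM G c0 c1 c2 c3 c4 y) (hne : x ≠ y)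
    (hz : TM G c1 c2 c3 c4 c0 z) : False := by
  gp 3

theorem mm' {c0 c1 c2 c3 c4 : V} (hg : NoGem G) (hp : NoP23 G) (hC : C5c G c0 c1 c2 c3 c4)
    {x y z : V} (hx : TM G c1 c2 c3 c4 c0 x) (hy : TM G c1 c2 c3 c4 c0 y) (hne : x ≠ y)
    (hz : TM G c0 c1 c2 c3 c4 z) : False := by
  gp 3


/-- all types -/
abbrev Fu (G : SimpleGraph V) (c0 c1 c2 c3 c4 y : V) : Prop :=
  TN G c0 c1 c2 c3 c4 y ∨ TD G c0 c1 c2 c3 c4 y ∨ TD G c1 c2 c3 c4 c0 y ∨ TD G c2 c3 c4 c0 c1 y ∨ TD G c3 c4 c0 c1 c2 y ∨ TD G c4 c0 c1 c2 c3 y ∨ TK G c0 c1 c2 c3 c4 y ∨ TK G c1 c2 c3 c4 c0 y ∨ TK G c2 c3 c4 c0 c1 y ∨ TK G c3 c4 c0 c1 c2 y ∨ TK G c4 c0 c1 c2 c3 y ∨ TM G c0 c1 c2 c3 c4 y ∨ TM G c1 c2 c3 c4 c0 y ∨ TM G c2 c3 c4 c0 c1 y ∨ TM G c3 c4 c0 c1 c2 y ∨ TM G c4 c0 c1 c2 c3 y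

theorem rotF {c0 c1 c2 c3 c4 y : V} (h : Fu G c0 c1 c2 c3 c4 y) : Fu G c1 c2 c3 c4 c0 y := by
  rcases h with h | h | h | h | h | h | h | h | h | h | h | h | h | h | h | h
  · exact Or.inl ⟨h.2.1, h.2.2.1, h.2.2.2.1, h.2.2.2.2, h.1⟩
  all_goals
    repeat' first
      | exact h
      | exact Or.inl h
      | apply Or.inr

theorem drop {c0 c1 c2 c3 c4 y : V} (h : Fu G c0 c1 c2 c3 c4 y) (hn : ¬ TK G c0 c1 c2 c3 c4 y) :
    Ty G c0 c1 c2 c3 c4 y := by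
  rcases h with h | h | h | h | h | h | h | h | h | h | h | h | h | h | h | h
  case inr.inr.inr.inr.inr.inr.inl => exact absurd h hn
  all_goals
    repeat' first
      | exact h
      | exact Or.inl h
      | apply Or.inr

/-- the label of a vertex -/
noncomputable def lab (G : SimpleGraph V) (c0 c1 c2 c3 c4 x : V) :
    Bool × Bool × Bool × Bool × Bool :=
  (decide (G.Adj c0 x), decide (G.Adj c1 x), decide (G.Adj c2 x), decide (G.Adj c3 x),
    decide (G.Adj c4 x))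

def F (l l' : Bool × Bool × Bool × Bool × Bool) : Prop :=
  (l = (true, true, false, false, true) ∧ l'.1 = true) ∨
  (l = (true, true, true, false, false) ∧ l'.2.1 = true) ∨
  (l = (false, true, true, true, false) ∧ l'.2.2.1 = true) ∨
  (l = (false, false, true, true, true) ∧ l'.2.2.2.1 = true) ∨
  (l = (true, false, false, true, true) ∧ l'.2.2.2.2 = true)

theorem lab0 {c0 c1 c2 c3 c4 x : V} (h : TK G c0 c1 c2 c3 c4 x) :
    lab G c0 c1 c2 c3 c4 x = (true, true, false, false, true) := by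
  obtain ⟨h1, h2, h3, h4, h5⟩ := h
  simp [lab, h1, h2, h3, h4, h5]

theorem unl0 {c0 c1 c2 c3 c4 x : V} (h : lab G c0 c1 c2 c3 c4 x = (true, true, false, false, true)) :
    TK G c0 c1 c2 c3 c4 x := by
  simp only [lab, Prod.mk.injEq, decide_eq_true_eq, decide_eq_false_iff_not] at h
  exact ⟨h.1, h.2.1, h.2.2.1, h.2.2.2.1, h.2.2.2.2⟩

theorem lab1 {c0 c1 c2 c3 c4 x : V} (h : TK G c1 c2 c3 c4 c0 x) :
    lab G c0 c1 c2 c3 c4 x = (true, true, true, false, false) := by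
  obtain ⟨h1, h2, h3, h4, h5⟩ := h
  simp [lab, h1, h2, h3, h4, h5]

theorem unl1 {c0 c1 c2 c3 c4 x : V} (h : lab G c0 c1 c2 c3 c4 x = (true, true, true, false, false)) :
    TK G c1 c2 c3 c4 c0 x := by
  simp only [lab, Prod.mk.injEq, decide_eq_true_eq, decide_eq_false_iff_not] at h
  exact ⟨h.2.1, h.2.2.1, h.2.2.2.1, h.2.2.2.2, h.1⟩

theorem lab2 {c0 c1 c2 c3 c4 x : V} (h : TK G c2 c3 c4 c0 c1 x) :
    lab G c0 c1 c2 c3 c4 x = (false, true, true, true, false) := by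
  obtain ⟨h1, h2, h3, h4, h5⟩ := h
  simp [lab, h1, h2, h3, h4, h5]

theorem unl2 {c0 c1 c2 c3 c4 x : V} (h : lab G c0 c1 c2 c3 c4 x = (false, true, true, true, false)) :
    TK G c2 c3 c4 c0 c1 x := by
  simp only [lab, Prod.mk.injEq, decide_eq_true_eq, decide_eq_false_iff_not] at h
  exact ⟨h.2.2.1, h.2.2.2.1, h.2.2.2.2, h.1, h.2.1⟩

theorem lab3 {c0 c1 c2 c3 c4 x : V} (h : TK G c3 c4 c0 c1 c2 x) :
    lab G c0 c1 c2 c3 c4 x = (false, false, true, true, true) := by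
  obtain ⟨h1, h2, h3, h4, h5⟩ := h
  simp [lab, h1, h2, h3, h4, h5]

theorem unl3 {c0 c1 c2 c3 c4 x : V} (h : lab G c0 c1 c2 c3 c4 x = (false, false, true, true, true)) :
    TK G c3 c4 c0 c1 c2 x := by
  simp only [lab, Prod.mk.injEq, decide_eq_true_eq, decide_eq_false_iff_not] at h
  exact ⟨h.2.2.2.1, h.2.2.2.2, h.1, h.2.1, h.2.2.1⟩

theorem lab4 {c0 c1 c2 c3 c4 x : V} (h : TK G c4 c0 c1 c2 c3 x) :
    lab G c0 c1 c2 c3 c4 x = (true, false, false, true, true) := by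
  obtain ⟨h1, h2, h3, h4, h5⟩ := h
  simp [lab, h1, h2, h3, h4, h5]

theorem unl4 {c0 c1 c2 c3 c4 x : V} (h : lab G c0 c1 c2 c3 c4 x = (true, false, false, true, true)) :
    TK G c4 c0 c1 c2 c3 x := by
  simp only [lab, Prod.mk.injEq, decide_eq_true_eq, decide_eq_false_iff_not] at h
  exact ⟨h.2.2.2.2, h.1, h.2.1, h.2.2.1, h.2.2.2.1⟩


theorem two {M M' : Finset V} (h : ∀ x ∈ M, ∀ y ∈ M, x ≠ y → ∀ z ∈ M', False) (h2 : 2 ≤ M.card) :
    ¬ 2 ≤ M'.card := by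
  intro h3
  obtain ⟨x, hx, y, hy, hne⟩ := Finset.one_lt_card.1 (by omega : 1 < M.card)
  obtain ⟨z, hz, _⟩ := Finset.one_lt_card.1 (by omega : 1 < M'.card)
  exact h x hx y hy hne z hz

theorem mcard {c0 c1 c2 c3 c4 : V} (hg : NoGem G) (hp : NoP23 G) (hC : C5c G c0 c1 c2 c3 c4)
    (R : Finset V) (h : 2 ≤ (R.filter (fun x => TM G c0 c1 c2 c3 c4 x)).card) :
    ¬ 2 ≤ (R.filter (fun x => TM G c1 c2 c3 c4 c0 x)).card := by
  refine two ?_ h
  intro x hx y hy hne z hz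
  rw [Finset.mem_filter] at hx hy hz
  exact mm hg hp hC hx.2 hy.2 hne hz.2

/-- the part without the `K_i` -/
theorem part (hNDM : NDMStmt) : ∃ K : ℕ, ∀ (V : Type) (G : SimpleGraph V), NoGem G → NoP23 G →
    ∀ (c0 c1 c2 c3 c4 : V), C5c G c0 c1 c2 c3 c4 → ∀ (R : Finset V),
    (∀ x ∈ R, TN G c0 c1 c2 c3 c4 x ∨
      TD G c0 c1 c2 c3 c4 x ∨ TD G c1 c2 c3 c4 c0 x ∨ TD G c2 c3 c4 c0 c1 x ∨
      TD G c3 c4 c0 c1 c2 x ∨ TD G c4 c0 c1 c2 c3 x ∨
      TM G c0 c1 c2 c3 c4 x ∨ TM G c1 c2 c3 c4 c0 x ∨ TM G c2 c3 c4 c0 c1 x ∨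
      TM G c3 c4 c0 c1 c2 x ∨ TM G c4 c0 c1 c2 c3 x) → BD G K R := by
  obtain ⟨K, hK⟩ := hNDM
  refine ⟨(K + 1) * 2 ^ 5, ?_⟩
  intro V G hg hp c0 c1 c2 c3 c4 hC R hR
  have hC1 := rot hC
  have hC2 := rot hC1
  have hC3 := rot hC2
  have hC4 := rot hC3
  have n0 := mcard hg hp hC R
  have n1 := mcard hg hp hC1 R
  have n2 := mcard hg hp hC2 R
  have n3 := mcard hg hp hC3 R
  have n4 := mcard hg hp hC4 R
  set M0 : Finset V := R.filter (fun x => TM G c0 c1 c2 c3 c4 x) with hM0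
  set M1 : Finset V := R.filter (fun x => TM G c1 c2 c3 c4 c0 x) with hM1
  set M2 : Finset V := R.filter (fun x => TM G c2 c3 c4 c0 c1 x) with hM2
  set M3 : Finset V := R.filter (fun x => TM G c3 c4 c0 c1 c2 x) with hM3
  set M4 : Finset V := R.filter (fun x => TM G c4 c0 c1 c2 c3 x) with hM4
  set X : Finset V := (if 2 ≤ M0.card then ∅ else M0) ∪ (if 2 ≤ M1.card then ∅ else M1) ∪
    (if 2 ≤ M2.card then ∅ else M2) ∪ (if 2 ≤ M3.card then ∅ else M3) ∪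
    (if 2 ≤ M4.card then ∅ else M4) with hX
  have hsm : ∀ M : Finset V, (if 2 ≤ M.card then (∅ : Finset V) else M).card ≤ 1 := by
    intro M
    split_ifs with h
    · simp
    · omega
  have hXc : X.card ≤ 5 := by
    have e0 := hsm M0
    have e1 := hsm M1
    have e2 := hsm M2
    have e3 := hsm M3
    have e4 := hsm M4
    rw [hX]
    refine (Finset.card_union_le _ _).trans ?_
    refine (Nat.add_le_add_right (Finset.card_union_le _ _) _).trans ?_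
    refine (Nat.add_le_add_right (Nat.add_le_add_right (Finset.card_union_le _ _) _) _).trans ?_
    refine (Nat.add_le_add_right (Nat.add_le_add_right (Nat.add_le_add_right
      (Finset.card_union_le _ _) _) _) _).trans ?_
    omega
  have hV : ∀ x ∈ R \ X, TN G c0 c1 c2 c3 c4 x ∨
      TD G c0 c1 c2 c3 c4 x ∨ TD G c1 c2 c3 c4 c0 x ∨ TD G c2 c3 c4 c0 c1 x ∨
      TD G c3 c4 c0 c1 c2 x ∨ TD G c4 c0 c1 c2 c3 x ∨
      (TM G c0 c1 c2 c3 c4 x ∧ 2 ≤ M0.card) ∨ (TM G c1 c2 c3 c4 c0 x ∧ 2 ≤ M1.card) ∨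
      (TM G c2 c3 c4 c0 c1 x ∧ 2 ≤ M2.card) ∨
      (TM G c3 c4 c0 c1 c2 x ∧ 2 ≤ M3.card) ∨ (TM G c4 c0 c1 c2 c3 x ∧ 2 ≤ M4.card) := by
    intro x hx
    rw [Finset.mem_sdiff] at hx
    obtain ⟨hx, hnx⟩ := hx
    rw [hX] at hnx
    simp only [Finset.mem_union, not_or] at hnx
    obtain ⟨⟨⟨⟨x0, x1⟩, x2⟩, x3⟩, x4⟩ := hnx
    have hcon : ∀ M : Finset V, x ∈ M → x ∉ (if 2 ≤ M.card then (∅ : Finset V) else M) →
        2 ≤ M.card := by
      intro M hm hn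
      by_contra h
      rw [if_neg h] at hn
      exact hn hm
    rcases hR x hx with h | h | h | h | h | h | h | h | h | h | h
    · exact Or.inl h
    · exact Or.inr (Or.inl h)
    · exact Or.inr (Or.inr (Or.inl h))
    · exact Or.inr (Or.inr (Or.inr (Or.inl h)))
    · exact Or.inr (Or.inr (Or.inr (Or.inr (Or.inl h))))
    · exact Or.inr (Or.inr (Or.inr (Or.inr (Or.inr (Or.inl h)))))
    · have h' := hcon M0 (Finset.mem_filter.2 ⟨hx, h⟩) x0
      exact Or.inr (Or.inr (Or.inr (Or.inr (Or.inr (Or.inr (Or.inl ⟨h, h'⟩))))))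
    · have h' := hcon M1 (Finset.mem_filter.2 ⟨hx, h⟩) x1
      exact Or.inr (Or.inr (Or.inr (Or.inr (Or.inr (Or.inr (Or.inr (Or.inl ⟨h, h'⟩)))))))
    · have h' := hcon M2 (Finset.mem_filter.2 ⟨hx, h⟩) x2
      exact Or.inr (Or.inr (Or.inr (Or.inr (Or.inr (Or.inr (Or.inr (Or.inr (Or.inl ⟨h, h'⟩))))))))
    · have h' := hcon M3 (Finset.mem_filter.2 ⟨hx, h⟩) x3
      exact Or.inr (Or.inr (Or.inr (Or.inr (Or.inr (Or.inr (Or.inr (Or.inr (Or.inr
        (Or.inl ⟨h, h'⟩)))))))))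
    · have h' := hcon M4 (Finset.mem_filter.2 ⟨hx, h⟩) x4
      exact Or.inr (Or.inr (Or.inr (Or.inr (Or.inr (Or.inr (Or.inr (Or.inr (Or.inr
        (Or.inr ⟨h, h'⟩)))))))))
  refine BD.of_sdiff (c := 5) (X := X) ?_ hXc
  have hcase : (¬ 2 ≤ M1.card ∧ ¬ 2 ≤ M3.card ∧ ¬ 2 ≤ M4.card) ∨
      (¬ 2 ≤ M2.card ∧ ¬ 2 ≤ M4.card ∧ ¬ 2 ≤ M0.card) ∨
      (¬ 2 ≤ M3.card ∧ ¬ 2 ≤ M0.card ∧ ¬ 2 ≤ M1.card) ∨
      (¬ 2 ≤ M4.card ∧ ¬ 2 ≤ M1.card ∧ ¬ 2 ≤ M2.card) ∨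
      (¬ 2 ≤ M0.card ∧ ¬ 2 ≤ M2.card ∧ ¬ 2 ≤ M3.card) := by
    clear_value M0 M1 M2 M3 M4
    clear hV hXc hsm hX hM0 hM1 hM2 hM3 hM4 hR hC hC1 hC2 hC3 hC4
    omega
  rcases hcase with hm | hm | hm | hm | hm
  · refine hK V G hg hp c0 c1 c2 c3 c4 hC (R \ X) ?_
    intro x hx
    rcases hV x hx with h | h | h | h | h | h | h | h | h | h | h
    · exact Or.inl h
    · exact Or.inr (Or.inl h)
    · exact Or.inr (Or.inr (Or.inl h))
    · exact Or.inr (Or.inr (Or.inr (Or.inl h)))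
    · exact Or.inr (Or.inr (Or.inr (Or.inr (Or.inl h))))
    · exact Or.inr (Or.inr (Or.inr (Or.inr (Or.inr (Or.inl h)))))
    · exact Or.inr (Or.inr (Or.inr (Or.inr (Or.inr (Or.inr (Or.inl h.1))))))
    · exact absurd h.2 hm.1
    · exact Or.inr (Or.inr (Or.inr (Or.inr (Or.inr (Or.inr (Or.inr h.1))))))
    · exact absurd h.2 hm.2.1
    · exact absurd h.2 hm.2.2
  · refine hK V G hg hp c1 c2 c3 c4 c0 hC1 (R \ X) ?_
    intro x hx
    rcases hV x hx with h | h | h | h | h | h | h | h | h | h | h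
    · exact Or.inl ⟨h.2.1, h.2.2.1, h.2.2.2.1, h.2.2.2.2, h.1⟩
    · exact Or.inr (Or.inr (Or.inr (Or.inr (Or.inr (Or.inl h)))))
    · exact Or.inr (Or.inl h)
    · exact Or.inr (Or.inr (Or.inl h))
    · exact Or.inr (Or.inr (Or.inr (Or.inl h)))
    · exact Or.inr (Or.inr (Or.inr (Or.inr (Or.inl h))))
    · exact absurd h.2 hm.2.2
    · exact Or.inr (Or.inr (Or.inr (Or.inr (Or.inr (Or.inr (Or.inl h.1))))))
    · exact absurd h.2 hm.1
    · exact Or.inr (Or.inr (Or.inr (Or.inr (Or.inr (Or.inr (Or.inr h.1))))))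
    · exact absurd h.2 hm.2.1
  · refine hK V G hg hp c2 c3 c4 c0 c1 hC2 (R \ X) ?_
    intro x hx
    rcases hV x hx with h | h | h | h | h | h | h | h | h | h | h
    · exact Or.inl ⟨h.2.2.1, h.2.2.2.1, h.2.2.2.2, h.1, h.2.1⟩
    · exact Or.inr (Or.inr (Or.inr (Or.inr (Or.inl h))))
    · exact Or.inr (Or.inr (Or.inr (Or.inr (Or.inr (Or.inl h)))))
    · exact Or.inr (Or.inl h)
    · exact Or.inr (Or.inr (Or.inl h))
    · exact Or.inr (Or.inr (Or.inr (Or.inl h)))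
    · exact absurd h.2 hm.2.1
    · exact absurd h.2 hm.2.2
    · exact Or.inr (Or.inr (Or.inr (Or.inr (Or.inr (Or.inr (Or.inl h.1))))))
    · exact absurd h.2 hm.1
    · exact Or.inr (Or.inr (Or.inr (Or.inr (Or.inr (Or.inr (Or.inr h.1))))))
  · refine hK V G hg hp c3 c4 c0 c1 c2 hC3 (R \ X) ?_
    intro x hx
    rcases hV x hx with h | h | h | h | h | h | h | h | h | h | h
    · exact Or.inl ⟨h.2.2.2.1, h.2.2.2.2, h.1, h.2.1, h.2.2.1⟩
    · exact Or.inr (Or.inr (Or.inr (Or.inl h)))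
    · exact Or.inr (Or.inr (Or.inr (Or.inr (Or.inl h))))
    · exact Or.inr (Or.inr (Or.inr (Or.inr (Or.inr (Or.inl h)))))
    · exact Or.inr (Or.inl h)
    · exact Or.inr (Or.inr (Or.inl h))
    · exact Or.inr (Or.inr (Or.inr (Or.inr (Or.inr (Or.inr (Or.inr h.1))))))
    · exact absurd h.2 hm.2.1
    · exact absurd h.2 hm.2.2
    · exact Or.inr (Or.inr (Or.inr (Or.inr (Or.inr (Or.inr (Or.inl h.1))))))
    · exact absurd h.2 hm.1
  · refine hK V G hg hp c4 c0 c1 c2 c3 hC4 (R \ X) ?_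
    intro x hx
    rcases hV x hx with h | h | h | h | h | h | h | h | h | h | h
    · exact Or.inl ⟨h.2.2.2.2, h.1, h.2.1, h.2.2.1, h.2.2.2.1⟩
    · exact Or.inr (Or.inr (Or.inl h))
    · exact Or.inr (Or.inr (Or.inr (Or.inl h)))
    · exact Or.inr (Or.inr (Or.inr (Or.inr (Or.inl h))))
    · exact Or.inr (Or.inr (Or.inr (Or.inr (Or.inr (Or.inl h)))))
    · exact Or.inr (Or.inl h)
    · exact absurd h.2 hm.1
    · exact Or.inr (Or.inr (Or.inr (Or.inr (Or.inr (Or.inr (Or.inr h.1))))))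
    · exact absurd h.2 hm.2.1
    · exact absurd h.2 hm.2.2
    · exact Or.inr (Or.inr (Or.inr (Or.inr (Or.inr (Or.inr (Or.inl h.1))))))

theorem c5a_stmt (hA : AttachStmt) (hNDM : NDMStmt) : C5aStmt := by
  obtain ⟨B, hB⟩ := hA
  obtain ⟨K, hK⟩ := part hNDM
  refine ⟨B K 1 (Fintype.card (Bool × Bool × Bool × Bool × Bool)), ?_⟩
  intro V G hg hp c0 c1 c2 c3 c4 hC R hR h0 h1 h2 h3 h4
  have hC1 := rot hC
  have hC2 := rot hC1
  have hC3 := rot hC2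
  have hC4 := rot hC3
  have hR1 : ∀ x ∈ R, Fu G c1 c2 c3 c4 c0 x := fun x hx => rotF (hR x hx)
  have hR2 : ∀ x ∈ R, Fu G c2 c3 c4 c0 c1 x := fun x hx => rotF (hR1 x hx)
  have hR3 : ∀ x ∈ R, Fu G c3 c4 c0 c1 c2 x := fun x hx => rotF (hR2 x hx)
  have hR4 : ∀ x ∈ R, Fu G c4 c0 c1 c2 c3 x := fun x hx => rotF (hR3 x hx)
  have A0 : ∀ x ∈ R, ∀ y ∈ R, TK G c0 c1 c2 c3 c4 x → ¬ TK G c0 c1 c2 c3 c4 y →
      (G.Adj x y ↔ G.Adj c0 y) :=
    fun x hx y hy h n => key hg hp hC h (drop (hR y hy) n) (h0 x hx y hy h)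
  have A1 : ∀ x ∈ R, ∀ y ∈ R, TK G c1 c2 c3 c4 c0 x → ¬ TK G c1 c2 c3 c4 c0 y →
      (G.Adj x y ↔ G.Adj c1 y) :=
    fun x hx y hy h n => key hg hp hC1 h (drop (hR1 y hy) n) (h1 x hx y hy h)
  have A2 : ∀ x ∈ R, ∀ y ∈ R, TK G c2 c3 c4 c0 c1 x → ¬ TK G c2 c3 c4 c0 c1 y →
      (G.Adj x y ↔ G.Adj c2 y) :=
    fun x hx y hy h n => key hg hp hC2 h (drop (hR2 y hy) n) (h2 x hx y hy h)
  have A3 : ∀ x ∈ R, ∀ y ∈ R, TK G c3 c4 c0 c1 c2 x → ¬ TK G c3 c4 c0 c1 c2 y →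
      (G.Adj x y ↔ G.Adj c3 y) :=
    fun x hx y hy h n => key hg hp hC3 h (drop (hR3 y hy) n) (h3 x hx y hy h)
  have A4 : ∀ x ∈ R, ∀ y ∈ R, TK G c4 c0 c1 c2 c3 x → ¬ TK G c4 c0 c1 c2 c3 y →
      (G.Adj x y ↔ G.Adj c4 y) :=
    fun x hx y hy h n => key hg hp hC4 h (drop (hR4 y hy) n) (h4 x hx y hy h)
  set KK : V → Prop := fun x => TK G c0 c1 c2 c3 c4 x ∨ TK G c1 c2 c3 c4 c0 x ∨
    TK G c2 c3 c4 c0 c1 x ∨ TK G c3 c4 c0 c1 c2 x ∨ TK G c4 c0 c1 c2 c3 x with hKK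
  set b : V → V ⊕ (Bool × Bool × Bool × Bool × Bool) := fun x =>
    if KK x then Sum.inr (lab G c0 c1 c2 c3 c4 x) else Sum.inl x with hb
  have hb1 : ∀ x, KK x → b x = Sum.inr (lab G c0 c1 c2 c3 c4 x) := fun x hx => if_pos hx
  have hb2 : ∀ x, ¬ KK x → b x = Sum.inl x := fun x hx => if_neg hx
  have hRe : R.filter (fun x => ¬ KK x) ∪ R.filter (fun x => KK x) = R := by
    ext x
    simp only [Finset.mem_union, Finset.mem_filter]
    tauto
  have main := hB V G (Bool × Bool × Bool × Bool × Bool) (V ⊕ (Bool × Bool × Bool × Bool × Bool))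
    K 1 (R.filter (fun x => ¬ KK x)) (R.filter (fun x => KK x)) (lab G c0 c1 c2 c3 c4) F b
    ?_ ?_ ?_ ?_
  · rwa [hRe] at main
  · apply hK V G hg hp c0 c1 c2 c3 c4 hC
    intro x hx
    rw [Finset.mem_filter] at hx
    obtain ⟨hx, hn⟩ := hx
    rcases hR x hx with h | h | h | h | h | h | h | h | h | h | h | h | h | h | h | h
    · exact Or.inl h
    · exact Or.inr (Or.inl h)
    · exact Or.inr (Or.inr (Or.inl h))
    · exact Or.inr (Or.inr (Or.inr (Or.inl h)))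
    · exact Or.inr (Or.inr (Or.inr (Or.inr (Or.inl h))))
    · exact Or.inr (Or.inr (Or.inr (Or.inr (Or.inr (Or.inl h)))))
    · exact absurd (Or.inl h) hn
    · exact absurd (Or.inr (Or.inl h)) hn
    · exact absurd (Or.inr (Or.inr (Or.inl h))) hn
    · exact absurd (Or.inr (Or.inr (Or.inr (Or.inl h)))) hn
    · exact absurd (Or.inr (Or.inr (Or.inr (Or.inr h)))) hn
    · exact Or.inr (Or.inr (Or.inr (Or.inr (Or.inr (Or.inr (Or.inl h))))))
    · exact Or.inr (Or.inr (Or.inr (Or.inr (Or.inr (Or.inr (Or.inr (Or.inl h)))))))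
    · exact Or.inr (Or.inr (Or.inr (Or.inr (Or.inr (Or.inr (Or.inr (Or.inr (Or.inl h))))))))
    · exact Or.inr (Or.inr (Or.inr (Or.inr (Or.inr (Or.inr (Or.inr (Or.inr (Or.inr
        (Or.inl h)))))))))
    · exact Or.inr (Or.inr (Or.inr (Or.inr (Or.inr (Or.inr (Or.inr (Or.inr (Or.inr
        (Or.inr h)))))))))
  · intro x hx y hy hxy
    rw [Finset.mem_filter] at hx hy
    rw [hb2 x hx.2, hb2 y hy.2] at hxy
    exact Sum.inl.inj hxy
  · intro x _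
    by_cases hx : KK x
    · apply BD.clq
      intro y hy z hz hne
      simp only [Finset.mem_filter] at hy hz
      rw [hb1 x hx] at hy hz
      have e : ∀ w, b w = Sum.inr (lab G c0 c1 c2 c3 c4 x) →
          lab G c0 c1 c2 c3 c4 w = lab G c0 c1 c2 c3 c4 x := by
        intro w hw
        by_cases hk : KK w
        · rw [hb1 w hk] at hw
          exact Sum.inr.inj hw
        · rw [hb2 w hk] at hw
          cases hw
      have ey := e y hy.2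
      have ez := e z hz.2
      rcases hx with h | h | h | h | h
      · rw [lab0 h] at ey ez
        exact kclq hp hC (unl0 ey) (unl0 ez) hne
      · rw [lab1 h] at ey ez
        exact kclq hp hC1 (unl1 ey) (unl1 ez) hne
      · rw [lab2 h] at ey ez
        exact kclq hp hC2 (unl2 ey) (unl2 ez) hne
      · rw [lab3 h] at ey ez
        exact kclq hp hC3 (unl3 ey) (unl3 ez) hne
      · rw [lab4 h] at ey ez
        exact kclq hp hC4 (unl4 ey) (unl4 ez) hne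
    · refine BD.sub (BD.singleton (x := x)) ?_
      intro y hy
      simp only [Finset.mem_filter] at hy
      rw [hb2 x hx] at hy
      rw [Finset.mem_singleton]
      by_cases hk : KK y
      · rw [hb1 y hk] at hy
        cases hy.2
      · rw [hb2 y hk] at hy
        exact Sum.inl.inj hy.2
  · intro x hx y hy hne
    rw [hRe] at hy
    rw [Finset.mem_filter] at hx
    obtain ⟨hx, hk⟩ := hx
    have hbn : lab G c0 c1 c2 c3 c4 y ≠ lab G c0 c1 c2 c3 c4 x ∨ ¬ KK y := by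
      by_cases hky : KK y
      · left
        intro he
        apply hne
        rw [hb1 x hk, hb1 y hky, he]
      · exact Or.inr hky
    rcases hk with h | h | h | h | h
    · have hn : ¬ TK G c0 c1 c2 c3 c4 y := by
        intro h'
        rcases hbn with hbn | hbn
        · exact hbn ((lab0 h').trans (lab0 h).symm)
        · exact hbn (Or.inl h')
      rw [A0 x hx y hy h hn, lab0 h]
      simp [F, lab]
    · have hn : ¬ TK G c1 c2 c3 c4 c0 y := by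
        intro h'
        rcases hbn with hbn | hbn
        · exact hbn ((lab1 h').trans (lab1 h).symm)
        · exact hbn (Or.inr (Or.inl h'))
      rw [A1 x hx y hy h hn, lab1 h]
      simp [F, lab]
    · have hn : ¬ TK G c2 c3 c4 c0 c1 y := by
        intro h'
        rcases hbn with hbn | hbn
        · exact hbn ((lab2 h').trans (lab2 h).symm)
        · exact hbn (Or.inr (Or.inr (Or.inl h')))
      rw [A2 x hx y hy h hn, lab2 h]
      simp [F, lab]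
    · have hn : ¬ TK G c3 c4 c0 c1 c2 y := by
        intro h'
        rcases hbn with hbn | hbn
        · exact hbn ((lab3 h').trans (lab3 h).symm)
        · exact hbn (Or.inr (Or.inr (Or.inr (Or.inl h'))))
      rw [A3 x hx y hy h hn, lab3 h]
      simp [F, lab]
    · have hn : ¬ TK G c4 c0 c1 c2 c3 y := by
        intro h'
        rcases hbn with hbn | hbn
        · exact hbn ((lab4 h').trans (lab4 h).symm)
        · exact hbn (Or.inr (Or.inr (Or.inr (Or.inr h'))))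
      rw [A4 x hx y hy h hn, lab4 h]
      simp [F, lab]

end Pool.Agent.H201R2.T19a
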